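import Mathlib
import Pool.Agent.Q288.CTMC.Compare2

/-!
# Interference queueing networks on `ℤ^d`
-/

set_option autoImplicit false
set_option linter.unusedSectionVars false

namespace Q288.IQN

open MeasureTheory Pool.Agent.W845.CP Filter Topology Q288.Jump
open scoped ENNReal

variable {d : ℕ}

/-- The sites: the points of `ℤ^d`. -/
abbrev Site (d : ℕ) : Type := Fin d → ℤ

/-- Queue lengths of a network in which only finitely many queues are nonempty. -/
abbrev Conf (d : ℕ) : Type := Site d →₀ ℕ

instance instMS : MeasurableSpace (Conf d) := ⊤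
instance instDMS : DiscreteMeasurableSpace (Conf d) := ⟨fun _ => trivial⟩

/-- Interference sequences. -/
structure IsInterference (a : Site d → ℝ) : Prop where
  nonneg : ∀ i, 0 ≤ a i
  zero : a 0 = 1
  symm : ∀ i, a (-i) = a i
  finite : (Function.support a).Finite
  irred : ∀ z : Site d, ∃ l : List (Site d), l ≠ [] ∧ (∀ i ∈ l, 0 < a i) ∧ l.sum = z

/-- The departure rate `x_i / ∑_j a_j x_{i-j}` of the queue `i` (it is `0` if `x_i = 0`). -/
noncomputable def R (a : Site d → ℝ) (x : Conf d) (i : Site d) : ℝ :=
  (x i : ℝ) / ∑ᶠ j, a j * (x (i - j) : ℝ)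

/-- The jump rates of the network in the finite set `B` of sites: arrivals at rate `lam` at the
sites of `B`, departures at the rates `R a x i`. -/
noncomputable def rates (a : Site d → ℝ) (lam : ℝ) (B : Finset (Site d)) (x : Conf d) :
    Measure (Conf d) :=
  ∑ i ∈ B, ENNReal.ofReal lam • Measure.dirac (x + Finsupp.single i 1) +
    ∑ i ∈ x.support, ENNReal.ofReal (R a x i) • Measure.dirac (x - Finsupp.single i 1)

open Classical in
/-- The jump kernel (with dummy jumps if all rates vanish, which does not happen for `lam > 0` and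
nonempty `B`). -/
noncomputable def jump (a : Site d → ℝ) (lam : ℝ) (B : Finset (Site d)) (x : Conf d) :
    Measure (Conf d) :=
  if rates a lam B x Set.univ = 0 then Measure.dirac x else rates a lam B x

lemma rates_lint (a : Site d → ℝ) (lam : ℝ) (B : Finset (Site d)) (x : Conf d)
    (f : Conf d → ℝ≥0∞) : ∫⁻ z, f z ∂(rates a lam B x) =
      ∑ i ∈ B, ENNReal.ofReal lam * f (x + Finsupp.single i 1) +
      ∑ i ∈ x.support, ENNReal.ofReal (R a x i) * f (x - Finsupp.single i 1) := by
  unfold rates
  rw [lintegral_add_measure, lintegral_finsetSum_measure, lintegral_finsetSum_measure]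
  simp only [lintegral_smul_measure, lintegral_dirac, smul_eq_mul]

lemma rates_univ (a : Site d → ℝ) (lam : ℝ) (B : Finset (Site d)) (x : Conf d) :
    rates a lam B x Set.univ = ∑ i ∈ B, ENNReal.ofReal lam +
      ∑ i ∈ x.support, ENNReal.ofReal (R a x i) := by
  rw [← lintegral_one, rates_lint]
  simp

lemma goodJ_jump (a : Site d → ℝ) (lam : ℝ) (B : Finset (Site d)) : GoodJ (jump a lam B) := by
  intro x
  unfold jump
  by_cases h : rates a lam B x Set.univ = 0
  · rw [if_pos h]; simp
  · rw [if_neg h]
    refine ⟨h, ?_⟩
    rw [rates_univ]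
    exact ENNReal.add_ne_top.2 ⟨ENNReal.sum_ne_top.2 fun _ _ => ENNReal.ofReal_ne_top,
      ENNReal.sum_ne_top.2 fun _ _ => ENNReal.ofReal_ne_top⟩

/-- The law of the network in the finite set `B` started with all queues empty: the law of the
sequence `(Y k, T k)`, where `Y k` is the state after `k` jumps and `T k` the time of the `k`-th
jump. The state at time `t` is `stateAt ω t`. -/
noncomputable def netLaw (a : Site d → ℝ) (lam : ℝ) (B : Finset (Site d)) :
    Measure (ℕ → Conf d × ℝ) :=
  law (jump a lam B) (goodJ_jump a lam B) 0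

/-- The box `[-n, n]^d`. -/
noncomputable def box (d n : ℕ) : Finset (Site d) :=
  Fintype.piFinset fun _ => Finset.Icc (-(n : ℤ)) n

/-- The probability that at time `t` the queue lengths of the network in the box `[-n, n]^d` at the
sites `i ∈ W` are at least `w i`. -/
noncomputable def boxTail (a : Site d → ℝ) (lam : ℝ) (t : ℝ) (W : Finset (Site d))
    (w : Site d → ℕ) (n : ℕ) : ℝ≥0∞ :=
  netLaw a lam (box d n) {ω | ∀ i ∈ W, w i ≤ stateAt ω t i}

/-- The probability that at time `t` the queue lengths of the infinite network at the sites `i ∈ W`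
are at least `w i`: the (monotone) limit of the networks in the boxes `[-n, n]^d`. -/
noncomputable def tail (a : Site d → ℝ) (lam : ℝ) (t : ℝ) (W : Finset (Site d))
    (w : Site d → ℕ) : ℝ≥0∞ :=
  ⨆ n, boxTail a lam t W w n

/-- The infinite network, started with all queues empty, is stable: the queue lengths converge in
distribution to an almost surely finite random vector (with law `ν`). -/
def Stable (a : Site d → ℝ) (lam : ℝ) : Prop :=
  ∃ ν : Measure (Site d → ℕ), IsProbabilityMeasure ν ∧
    ∀ (W : Finset (Site d)) (w : Site d → ℕ),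
      Tendsto (fun t => tail a lam t W w) atTop (𝓝 (ν {x | ∀ i ∈ W, w i ≤ x i}))

end Q288.IQN
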