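import Mathlib
import Pool.Agent.Q288.IQN.Defs

/-!
# Monotonicity in the volume and translation invariance
-/

set_option autoImplicit false
set_option linter.unusedSectionVars false

namespace Q288.IQN

open MeasureTheory ProbabilityTheory Pool.Agent.W845.CP Filter Topology Set Q288.Jump
open scoped ENNReal

variable {d : ℕ} {a : Site d → ℝ} (ha : IsInterference a) {lam : ℝ} (hlam : 0 < lam)

/-- The interference at `i`. -/
noncomputable def interf (a : Site d → ℝ) (x : Conf d) (i : Site d) : ℝ :=
  ∑ᶠ j, a j * (x (i - j) : ℝ)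

lemma interf_eq (x : Conf d) (i : Site d) (S : Finset (Site d)) (hS : x.support ⊆ S) :
    interf a x i = ∑ k ∈ S, a (i - k) * (x k : ℝ) := by
  unfold interf
  have h1 : ∀ j, a j * (x (i - j) : ℝ) = (fun k => a (i - k) * (x k : ℝ)) (Equiv.subLeft i j) := by
    intro j
    simp [Equiv.subLeft]
  simp only [h1]
  rw [finsum_comp_equiv (Equiv.subLeft i) (f := fun k => a (i - k) * (x k : ℝ))]
  refine finsum_eq_sum_of_support_subset _ fun k hk => ?_
  refine hS (Finsupp.mem_support_iff.2 fun h0 => ?_)
  apply hk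
  simp [h0]

include ha

lemma le_interf (x : Conf d) (i : Site d) : (x i : ℝ) ≤ interf a x i := by
  rw [interf_eq x i (insert i x.support) (Finset.subset_insert _ _)]
  have h1 := Finset.single_le_sum (f := fun k => a (i - k) * (x k : ℝ)) (s := insert i x.support)
    (fun k _ => mul_nonneg (ha.nonneg _) (Nat.cast_nonneg _)) (Finset.mem_insert_self i _)
  simpa [ha.zero] using h1

lemma interf_nonneg (x : Conf d) (i : Site d) : 0 ≤ interf a x i :=
  (Nat.cast_nonneg _).trans (le_interf ha x i)

lemma R_nonneg (x : Conf d) (i : Site d) : 0 ≤ R a x i :=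
  div_nonneg (Nat.cast_nonneg _) (interf_nonneg ha x i)

lemma R_le_one (x : Conf d) (i : Site d) : R a x i ≤ 1 :=
  div_le_one_of_le₀ (le_interf ha x i) (interf_nonneg ha x i)

omit ha in
lemma R_zero (x : Conf d) (i : Site d) (h : x i = 0) : R a x i = 0 := by
  unfold R; simp [h]

lemma R_mul (x : Conf d) (i : Site d) : R a x i * interf a x i = x i := by
  by_cases h : x i = 0
  · rw [R_zero x i h, h]; simp
  · have h1 : 0 < interf a x i :=
      lt_of_lt_of_le (by exact_mod_cast Nat.pos_of_ne_zero h) (le_interf ha x i)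
    show (x i : ℝ) / interf a x i * interf a x i = x i
    field_simp

lemma interf_mono (c : Site d) (x y : Conf d) (h : ∀ k, x k ≤ y (k + c)) (i : Site d) :
    interf a x (i - c) ≤ interf a y i := by
  classical
  rw [interf_eq x (i - c) x.support le_rfl,
    interf_eq y i (y.support ∪ x.support.image (fun k => k + c)) Finset.subset_union_left]
  calc ∑ k ∈ x.support, a (i - c - k) * (x k : ℝ) ≤
        ∑ k ∈ x.support, a (i - (k + c)) * (y (k + c) : ℝ) := by
        refine Finset.sum_le_sum fun k _ => ?_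
        have : i - c - k = i - (k + c) := by abel
        rw [this]
        exact mul_le_mul_of_nonneg_left (by exact_mod_cast h k) (ha.nonneg _)
    _ = ∑ k ∈ x.support.image (fun k => k + c), a (i - k) * (y k : ℝ) := by
        rw [Finset.sum_image]
        intro p _ q _ hpq
        exact add_right_cancel hpq
    _ ≤ _ := Finset.sum_le_sum_of_subset_of_nonneg Finset.subset_union_right
        (fun k _ _ => mul_nonneg (ha.nonneg _) (Nat.cast_nonneg _))

lemma R_anti (c : Site d) (x y : Conf d) (h : ∀ k, x k ≤ y (k + c)) (i : Site d)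
    (hi : x (i - c) = y i) : R a y i ≤ R a x (i - c) := by
  by_cases h0 : y i = 0
  · rw [R_zero y i h0]; exact R_nonneg ha x _
  · have h1 : 0 < interf a x (i - c) := by
      refine lt_of_lt_of_le ?_ (le_interf ha x (i - c))
      rw [hi]
      exact_mod_cast Nat.pos_of_ne_zero h0
    show (y i : ℝ) / interf a y i ≤ (x (i - c) : ℝ) / interf a x (i - c)
    rw [hi]
    exact div_le_div_of_nonneg_left (Nat.cast_nonneg _) h1 (interf_mono ha c x y h i)

omit ha

/-- rate in `ℝ≥0∞` -/
noncomputable def rE (a : Site d → ℝ) (x : Conf d) (i : Site d) : ℝ≥0∞ := ENNReal.ofReal (R a x i)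

lemma rE_zero (x : Conf d) (i : Site d) (h : x i = 0) : rE a x i = 0 := by
  unfold rE; rw [R_zero x i h, ENNReal.ofReal_zero]

include ha in
lemma rE_le_one (x : Conf d) (i : Site d) : rE a x i ≤ 1 := by
  unfold rE
  rw [← ENNReal.ofReal_one]
  exact ENNReal.ofReal_le_ofReal (R_le_one ha x i)

/-- action of the rates -/
noncomputable def rf (a : Site d → ℝ) (lam : ℝ) (B : Finset (Site d)) (f : Conf d → ℝ≥0∞)
    (x : Conf d) : ℝ≥0∞ :=
  ∑ i ∈ B, ENNReal.ofReal lam * f (x + Finsupp.single i 1) +
      ∑ i ∈ x.support, rE a x i * f (x - Finsupp.single i 1)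

/-- total rate -/
noncomputable def rt (a : Site d → ℝ) (lam : ℝ) (B : Finset (Site d)) (x : Conf d) : ℝ≥0∞ :=
  ∑ i ∈ B, ENNReal.ofReal lam + ∑ i ∈ x.support, rE a x i

include hlam in
lemma rt_ne_zero (B : Finset (Site d)) (hB : B.Nonempty) (x : Conf d) : rt a lam B x ≠ 0 := by
  unfold rt
  intro h
  rw [add_eq_zero] at h
  obtain ⟨i, hi⟩ := hB
  have := Finset.sum_eq_zero_iff.1 h.1 i hi
  rw [ENNReal.ofReal_eq_zero] at this
  linarith

lemma rt_ne_top (B : Finset (Site d)) (x : Conf d) : rt a lam B x ≠ ⊤ :=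
  ENNReal.add_ne_top.2 ⟨ENNReal.sum_ne_top.2 fun _ _ => ENNReal.ofReal_ne_top,
      ENNReal.sum_ne_top.2 fun _ _ => ENNReal.ofReal_ne_top⟩

include hlam in
lemma jump_univ (B : Finset (Site d)) (hB : B.Nonempty) (x : Conf d) :
    jump a lam B x Set.univ = rt a lam B x := by
  have h : rates a lam B x Set.univ = rt a lam B x := rates_univ a lam B x
  unfold jump
  rw [if_neg (by rw [h]; exact rt_ne_zero hlam B hB x), h]

include hlam in
lemma jump_lint (B : Finset (Site d)) (hB : B.Nonempty) (x : Conf d) (f : Conf d → ℝ≥0∞) :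
    ∫⁻ z, f z ∂(jump a lam B x) = rf a lam B f x := by
  have h : rates a lam B x Set.univ = rt a lam B x := rates_univ a lam B x
  unfold jump
  rw [if_neg (by rw [h]; exact rt_ne_zero hlam B hB x), rates_lint]
  rfl

include hlam in
lemma inv_step (B : Finset (Site d)) (hB : B.Nonempty) (x : Conf d) (hx : x.support ⊆ B) :
    ∀ᵐ z ∂(jump a lam B x), z.support ⊆ B := by
  classical
  have h1 := jump_lint (a := a) hlam B hB x (fun z => if z.support ⊆ B then 0 else 1)
  have h2 : rf a lam B (fun z => if z.support ⊆ B then 0 else 1) x = 0 := by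
    unfold rf
    rw [add_eq_zero]
    constructor
    · refine Finset.sum_eq_zero fun i hi => ?_
      dsimp only
      rw [if_pos, mul_zero]
      refine (Finsupp.support_add).trans (Finset.union_subset hx ?_)
      exact (Finsupp.support_single_subset).trans (Finset.singleton_subset_iff.2 hi)
    · refine Finset.sum_eq_zero fun i _ => ?_
      dsimp only
      rw [if_pos, mul_zero]
      exact (Finsupp.support_tsub).trans hx
  rw [h2, lintegral_eq_zero_iff (measurable_of_countable _)] at h1
  filter_upwards [h1] with z hz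
  by_contra hc
  simp [hc] at hz

include ha hlam in
lemma rt_le (B : Finset (Site d)) (x : Conf d) (hx : x.support ⊆ B) (N : ℕ) (hN : B.card ≤ N) :
    rt a lam B x ≤ ENNReal.ofReal ((lam + 1) * N) := by
  unfold rt
  calc _ ≤ ∑ i ∈ B, ENNReal.ofReal lam + ∑ i ∈ x.support, 1 := by
        gcongr with i hi
        exact rE_le_one ha x i
    _ = (B.card : ℝ≥0∞) * ENNReal.ofReal lam + x.support.card := by simp
    _ ≤ (N : ℝ≥0∞) * ENNReal.ofReal lam + N := by
        gcongr
        exact (Finset.card_le_card hx).trans hN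
    _ = _ := by
        rw [mul_comm (lam + 1), ENNReal.ofReal_mul (Nat.cast_nonneg _),
          ENNReal.ofReal_add hlam.le zero_le_one, ENNReal.ofReal_one, ENNReal.ofReal_natCast]
        ring

/-- uniformised operator with constant `Λ` -/
noncomputable def PP (a : Site d → ℝ) (lam : ℝ) (Λ : ℝ) (B : Finset (Site d))
    (f : Conf d → ℝ≥0∞) (x : Conf d) : ℝ≥0∞ :=
  (ENNReal.ofReal Λ)⁻¹ * (rf a lam B f x + (ENNReal.ofReal Λ - rt a lam B x) * f x)

noncomputable def PPn (a : Site d → ℝ) (lam : ℝ) (Λ : ℝ) (B : Finset (Site d))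
    (f : Conf d → ℝ≥0∞) : ℕ → Conf d → ℝ≥0∞
  | 0 => f
  | (k + 1) => PP a lam Λ B (PPn a lam Λ B f k)

include hlam in
lemma PP_spec (Λ : ℝ) (hΛ : 0 < Λ) (B : Finset (Site d)) (hB : B.Nonempty) (x : Conf d)
    (h : rt a lam B x ≤ ENNReal.ofReal Λ) (f : Conf d → ℝ≥0∞) :
    ENNReal.ofReal Λ * PP a lam Λ B f x + jump a lam B x Set.univ * f x =
      ∫⁻ z, f z ∂(jump a lam B x) + ENNReal.ofReal Λ * f x := by
  have h0 : ENNReal.ofReal Λ ≠ 0 := by simpa using hΛ
  unfold PP
  rw [← mul_assoc, ENNReal.mul_inv_cancel h0 ENNReal.ofReal_ne_top, one_mul,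
    jump_lint hlam B hB, jump_univ hlam B hB, add_assoc, ← add_mul, tsub_add_cancel_of_le h]

lemma PP_le_one (Λ : ℝ) (hΛ : 0 < Λ) (B : Finset (Site d)) (x : Conf d)
    (h : rt a lam B x ≤ ENNReal.ofReal Λ) (hx : x.support ⊆ B) (f : Conf d → ℝ≥0∞)
    (hf : ∀ z : Conf d, z.support ⊆ B → f z ≤ 1) : PP a lam Λ B f x ≤ 1 := by
  classical
  have h0 : ENNReal.ofReal Λ ≠ 0 := by simpa using hΛ
  unfold PP
  have h1 : rf a lam B f x ≤ rt a lam B x := by
    unfold rf rt
    refine add_le_add ?_ ?_
    · refine Finset.sum_le_sum fun i hi => ?_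
      calc _ ≤ ENNReal.ofReal lam * 1 := by
            gcongr
            apply hf
            refine (Finsupp.support_add).trans (Finset.union_subset hx ?_)
            exact (Finsupp.support_single_subset).trans (Finset.singleton_subset_iff.2 hi)
        _ = _ := mul_one _
    · refine Finset.sum_le_sum fun i hi => ?_
      calc _ ≤ rE a x i * 1 := by
            gcongr
            apply hf
            exact (Finsupp.support_tsub).trans hx
        _ = _ := mul_one _
  calc _ ≤ (ENNReal.ofReal Λ)⁻¹ * (rt a lam B x + (ENNReal.ofReal Λ - rt a lam B x) * 1) := by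
        gcongr
        exact hf x hx
    _ = (ENNReal.ofReal Λ)⁻¹ * ENNReal.ofReal Λ := by rw [mul_one, add_tsub_cancel_of_le h]
    _ = 1 := ENNReal.inv_mul_cancel h0 ENNReal.ofReal_ne_top

open Classical in
/-- The contribution of the site `i` (of the larger volume) to the uniformised operator of the
translated smaller volume. -/
noncomputable def trm (a : Site d → ℝ) (lam : ℝ) (B : Finset (Site d)) (f : Conf d → ℝ≥0∞)
    (x : Conf d) (i : Site d) : ℝ≥0∞ :=
  ENNReal.ofReal lam * f (if i ∈ B then x + Finsupp.single i 1 else x) +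
    (rE a x i * f (x - Finsupp.single i 1) + (1 - rE a x i) * f x)

include ha hlam in
lemma unif_identity (c : Site d) (B B' : Finset (Site d)) (hB : ∀ i ∈ B, i + c ∈ B')
    (f : Conf d → ℝ≥0∞) (x : Conf d) (hx : x.support ⊆ B) :
    rf a lam B f x + (ENNReal.ofReal ((lam + 1) * B'.card) - rt a lam B x) * f x =
      ∑ i ∈ B', trm a lam B f x (i - c) := by
  classical
  set B1 := B.image (fun i => i + c) with hB1
  have hB1' : B1 ⊆ B' := by
    intro i hi
    obtain ⟨k, hk, rfl⟩ := Finset.mem_image.1 hi
    exact hB k hk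
  have hmem : ∀ i, i - c ∈ B ↔ i ∈ B1 := by
    intro i
    rw [hB1, Finset.mem_image]
    constructor
    · intro h; exact ⟨i - c, h, by abel⟩
    · rintro ⟨k, hk, rfl⟩
      have : k + c - c = k := by abel
      rw [this]; exact hk
  have hsum : ∀ F : Site d → ℝ≥0∞, ∑ i ∈ B1, F (i - c) = ∑ i ∈ B, F i := by
    intro F
    rw [hB1, Finset.sum_image (fun p _ q _ h => add_right_cancel h)]
    refine Finset.sum_congr rfl fun i _ => ?_
    have : i + c - c = i := by abel
    rw [this]
  -- arrivals
  have e1 : ∑ i ∈ B', ENNReal.ofReal lam * f (if i - c ∈ B then x + Finsupp.single (i - c) 1 else x)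
      = ∑ i ∈ B, ENNReal.ofReal lam * f (x + Finsupp.single i 1) +
        ∑ i ∈ B' \ B1, ENNReal.ofReal lam * f x := by
    rw [← Finset.sum_sdiff hB1', add_comm]
    congr 1
    · rw [← hsum fun i => ENNReal.ofReal lam * f (x + Finsupp.single i 1)]
      refine Finset.sum_congr rfl fun i hi => ?_
      rw [if_pos ((hmem i).2 hi)]
    · refine Finset.sum_congr rfl fun i hi => ?_
      rw [if_neg (fun h => (Finset.mem_sdiff.1 hi).2 ((hmem i).1 h))]
  -- departures
  have hzero : ∀ (G : Site d → ℝ≥0∞), ∑ i ∈ B', rE a x (i - c) * G (i - c) =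
      ∑ i ∈ x.support, rE a x i * G i := by
    intro G
    rw [← Finset.sum_sdiff hB1', hsum fun i => rE a x i * G i]
    have h1 : ∑ i ∈ B' \ B1, rE a x (i - c) * G (i - c) = 0 := by
      refine Finset.sum_eq_zero fun i hi => ?_
      rw [rE_zero x (i - c), zero_mul]
      by_contra h0
      exact (Finset.mem_sdiff.1 hi).2 ((hmem i).1 (hx (Finsupp.mem_support_iff.2 h0)))
    rw [h1, zero_add]
    symm
    refine Finset.sum_subset hx fun i _ hi => ?_
    rw [rE_zero x i (Finsupp.notMem_support_iff.1 hi), zero_mul]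
  have e2 : ENNReal.ofReal ((lam + 1) * B'.card) = rt a lam B x +
      (∑ i ∈ B' \ B1, ENNReal.ofReal lam + ∑ i ∈ B', (1 - rE a x (i - c))) := by
    have h1 : ENNReal.ofReal ((lam + 1) * B'.card) =
        ∑ i ∈ B', ENNReal.ofReal lam + ∑ i ∈ B', 1 := by
      rw [mul_comm, ENNReal.ofReal_mul (Nat.cast_nonneg _),
          ENNReal.ofReal_add hlam.le zero_le_one, ENNReal.ofReal_one, ENNReal.ofReal_natCast]
      simp [mul_add]
    have h2 : ∑ i ∈ B', (1 : ℝ≥0∞) = ∑ i ∈ x.support, rE a x i +
        ∑ i ∈ B', (1 - rE a x (i - c)) := by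
      have h3 := hzero fun _ => 1
      simp only [mul_one] at h3
      rw [← h3, ← Finset.sum_add_distrib]
      refine Finset.sum_congr rfl fun i _ => ?_
      rw [add_tsub_cancel_of_le (rE_le_one ha x (i - c))]
    have h4 : ∑ i ∈ B', ENNReal.ofReal lam = ∑ i ∈ B, ENNReal.ofReal lam +
        ∑ i ∈ B' \ B1, ENNReal.ofReal lam := by
      rw [← Finset.sum_sdiff hB1', add_comm, hsum fun _ => ENNReal.ofReal lam]
    rw [h1, h2, h4]
    unfold rt
    ring
  have e3 : ENNReal.ofReal ((lam + 1) * B'.card) - rt a lam B x =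
      ∑ i ∈ B' \ B1, ENNReal.ofReal lam + ∑ i ∈ B', (1 - rE a x (i - c)) :=
    ENNReal.sub_eq_of_eq_add_rev (rt_ne_top B x) e2
  rw [e3]
  unfold trm rf
  rw [Finset.sum_add_distrib, Finset.sum_add_distrib, e1,
    hzero fun i => f (x - Finsupp.single i 1)]
  have e4 : ∀ s : Finset (Site d), ∑ i ∈ s, (1 - rE a x (i - c)) * f x =
      (∑ i ∈ s, (1 - rE a x (i - c))) * f x := fun s => (Finset.sum_mul _ _ _).symm
  have e5 : ∑ i ∈ B' \ B1, ENNReal.ofReal lam * f x = (∑ i ∈ B' \ B1, ENNReal.ofReal lam) * f x :=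
    (Finset.sum_mul _ _ _).symm
  rw [e4, e5]
  ring

include ha in
lemma trm_le (c : Site d) (B B' : Finset (Site d)) (hB : ∀ i ∈ B, i + c ∈ B')
    (f f' : Conf d → ℝ≥0∞)
    (H : ∀ x y : Conf d, (∀ k, x k ≤ y (k + c)) → x.support ⊆ B → y.support ⊆ B' → f x ≤ f' y)
    (x y : Conf d) (h : ∀ k, x k ≤ y (k + c)) (hx : x.support ⊆ B) (hy : y.support ⊆ B')
    (i : Site d) (hi : i ∈ B') :
    trm a lam B f x (i - c) ≤ trm a lam B' f' y i := by
  classical
  have hcc : ∀ k : Site d, k + c = i ↔ k = i - c := fun k =>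
    ⟨fun h => by rw [← h]; abel, fun h => by rw [h]; abel⟩
  have hic : i - c + c = i := by abel
  have hsx : (x - Finsupp.single (i - c) 1).support ⊆ B := (Finsupp.support_tsub).trans hx
  have hsy : (y - Finsupp.single i 1).support ⊆ B' := (Finsupp.support_tsub).trans hy
  have hay : (y + Finsupp.single i 1).support ⊆ B' :=
    (Finsupp.support_add).trans (Finset.union_subset hy
      ((Finsupp.support_single_subset).trans (Finset.singleton_subset_iff.2 hi)))
  unfold trm
  refine add_le_add ?_ ?_
  · gcongr ENNReal.ofReal lam * ?_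
    rw [if_pos hi]
    split_ifs with h1
    · apply H
      · intro k
        simp only [Finsupp.coe_add, Pi.add_apply, Finsupp.single_apply]
        have := h k
        by_cases hk : k = i - c
        · rw [if_pos hk.symm, if_pos ((hcc k).2 hk).symm]; omega
        · rw [if_neg (fun h => hk h.symm)]; omega
      · exact (Finsupp.support_add).trans (Finset.union_subset hx
          ((Finsupp.support_single_subset).trans (Finset.singleton_subset_iff.2 h1)))
      · exact hay
    · apply H _ _ _ hx hay
      intro k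
      simp only [Finsupp.coe_add, Pi.add_apply]
      have := h k
      omega
  · have hxy : f x ≤ f' y := H x y h hx hy
    have hd : f (x - Finsupp.single (i - c) 1) ≤ f' (y - Finsupp.single i 1) := by
      apply H _ _ _ hsx hsy
      intro k
      simp only [Finsupp.coe_tsub, Pi.sub_apply, Finsupp.single_apply]
      have := h k
      by_cases hk : k = i - c
      · rw [if_pos hk.symm, if_pos ((hcc k).2 hk).symm]; omega
      · rw [if_neg (fun h => hk h.symm), if_neg (fun h => hk ((hcc k).1 h.symm))]; omega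
    have hd' : f (x - Finsupp.single (i - c) 1) ≤ f' y := by
      apply H _ _ _ hsx hy
      intro k
      simp only [Finsupp.coe_tsub, Pi.sub_apply]
      have := h k
      omega
    have hle := h (i - c)
    rw [hic] at hle
    set r := rE a x (i - c) with hr
    set s := rE a y i with hs
    have hr1 : r ≤ 1 := rE_le_one ha x _
    have hs1 : s ≤ 1 := rE_le_one ha y _
    rcases hle.lt_or_eq with hlt | heq
    · -- strict inequality of the queue lengths
      have hxd : f x ≤ f' (y - Finsupp.single i 1) := by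
        apply H _ _ _ hx hsy
        intro k
        simp only [Finsupp.coe_tsub, Pi.sub_apply, Finsupp.single_apply]
        have := h k
        by_cases hk : k = i - c
        · rw [if_pos ((hcc k).2 hk).symm, hk, hic]; omega
        · rw [if_neg (fun h => hk ((hcc k).1 h.symm))]; omega
      set m := max (f (x - Finsupp.single (i - c) 1)) (f x) with hm
      calc r * f (x - Finsupp.single (i - c) 1) + (1 - r) * f x ≤ r * m + (1 - r) * m := by
            gcongr
            · exact le_max_left _ _
            · exact le_max_right _ _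
        _ = m := by rw [← add_mul, add_tsub_cancel_of_le hr1, one_mul]
        _ = s * m + (1 - s) * m := by rw [← add_mul, add_tsub_cancel_of_le hs1, one_mul]
        _ ≤ _ := by
            gcongr
            · exact max_le hd hxd
            · exact max_le hd' hxy
    · have hsr : s ≤ r := ENNReal.ofReal_le_ofReal (R_anti ha c x y h i heq)
      have e1 : r = s + (r - s) := (add_tsub_cancel_of_le hsr).symm
      have e2 : 1 - s = (r - s) + (1 - r) := by
        have hsne : s ≠ ⊤ := ne_top_of_le_ne_top ENNReal.one_ne_top hs1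
        refine ENNReal.sub_eq_of_eq_add_rev hsne ?_
        rw [← add_assoc, ← e1, add_tsub_cancel_of_le hr1]
      calc r * f (x - Finsupp.single (i - c) 1) + (1 - r) * f x
          = s * f (x - Finsupp.single (i - c) 1) + ((r - s) * f (x - Finsupp.single (i - c) 1) +
            (1 - r) * f x) := by
            rw [← add_assoc, ← add_mul, ← e1]
        _ ≤ s * f' (y - Finsupp.single i 1) + ((r - s) * f' y + (1 - r) * f' y) := by gcongr
        _ = _ := by rw [← add_mul, ← e2]

include ha hlam in
/-- **Comparison of two volumes.** -/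
theorem pr_le (c : Site d) (B B' : Finset (Site d)) (hBne : B.Nonempty)
    (hB : ∀ i ∈ B, i + c ∈ B') (f f' : Conf d → ℝ≥0∞) (hf1 : ∀ x, f x ≤ 1) (hf1' : ∀ x, f' x ≤ 1)
    (H : ∀ x y : Conf d, (∀ k, x k ≤ y (k + c)) → f x ≤ f' y) {t : ℝ} (ht : 0 ≤ t) :
    pr (jump a lam B) (goodJ_jump a lam B) 0 t f ≤
      pr (jump a lam B') (goodJ_jump a lam B') 0 t f' := by
  classical
  obtain ⟨i0, hi0⟩ := hBne
  have hBne : B.Nonempty := ⟨i0, hi0⟩
  have hBne' : B'.Nonempty := ⟨_, hB i0 hi0⟩
  have hcard : B.card ≤ B'.card :=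
    Finset.card_le_card_of_injOn (fun i => i + c) (fun i hi => hB i hi)
      (fun p _ q _ h => add_right_cancel h)
  set Λ : ℝ := (lam + 1) * B'.card with hΛdef
  have hΛ : 0 < Λ := by
    have : (0 : ℝ) < B'.card := by exact_mod_cast hBne'.card_pos
    positivity
  have hrt : ∀ y : Conf d, y.support ⊆ B → rt a lam B y ≤ ENNReal.ofReal Λ := fun y hy =>
    rt_le ha hlam B y hy _ hcard
  have hrt' : ∀ y : Conf d, y.support ⊆ B' → rt a lam B' y ≤ ENNReal.ofReal Λ := fun y hy =>
    rt_le ha hlam B' y hy _ le_rfl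
  refine compare2 (jump a lam B) (goodJ_jump a lam B) 0 (fun y => y.support ⊆ B) (by simp)
    (fun y hy => inv_step hlam B hBne y hy) (jump a lam B') (goodJ_jump a lam B') 0
    (fun y => y.support ⊆ B') (by simp) (fun y hy => inv_step hlam B' hBne' y hy) Λ hΛ
    (fun y hy => by rw [jump_univ hlam B hBne]; exact hrt y hy)
    (fun y hy => by rw [jump_univ hlam B' hBne']; exact hrt' y hy)
    (PPn a lam Λ B f) (PPn a lam Λ B' f') ?_ ?_
    (fun k y hy => PP_spec hlam Λ hΛ B hBne y (hrt y hy) _)
    (fun k y hy => PP_spec hlam Λ hΛ B' hBne' y (hrt' y hy) _) ?_ ht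
  · intro k
    induction k with
    | zero => intro y _; exact hf1 y
    | succ k ih => intro y hy; exact PP_le_one Λ hΛ B y (hrt y hy) hy _ ih
  · intro k
    induction k with
    | zero => intro y _; exact hf1' y
    | succ k ih => intro y hy; exact PP_le_one Λ hΛ B' y (hrt' y hy) hy _ ih
  · have key : ∀ k, ∀ x y : Conf d, (∀ j, x j ≤ y (j + c)) → x.support ⊆ B → y.support ⊆ B' →
        PPn a lam Λ B f k x ≤ PPn a lam Λ B' f' k y := by
      intro k
      induction k with
      | zero => intro x y h _ _; exact H x y h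
      | succ k ih =>
        intro x y h hx hy
        show PP a lam Λ B (PPn a lam Λ B f k) x ≤ PP a lam Λ B' (PPn a lam Λ B' f' k) y
        unfold PP
        gcongr (ENNReal.ofReal Λ)⁻¹ * ?_
        have e1 := unif_identity ha hlam c B B' hB (PPn a lam Λ B f k) x hx
        have e2 := unif_identity ha hlam 0 B' B' (fun i hi => by simpa using hi)
          (PPn a lam Λ B' f' k) y hy
        rw [e1, e2]
        refine Finset.sum_le_sum fun i hi => ?_
        rw [sub_zero]
        exact trm_le ha c B B' hB _ _ ih x y h hx hy i hi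
    intro k
    exact key k 0 0 (fun j => by simp) (by simp) (by simp)

end Q288.IQN
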