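import Mathlib
import Pool.Agent.Q288.IQN.Mono

/-!
# The truncated interaction energy
-/

set_option autoImplicit false
set_option linter.unusedSectionVars false

namespace Q288.IQN

open MeasureTheory ProbabilityTheory Pool.Agent.W845.CP Filter Topology Set Q288.Jump
open scoped ENNReal

variable {d : ℕ} {a : Site d → ℝ} (ha : IsInterference a) {lam : ℝ} (hlam : 0 < lam)
  (B : Finset (Site d)) (K : ℕ)

/-- quadratic form -/
noncomputable def Q (a : Site d → ℝ) (B : Finset (Site d)) (u : Site d → ℝ) : ℝ :=
  ∑ i ∈ B, ∑ j ∈ B, a (i - j) * (u i * u j)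

include ha in
lemma a_comm (i j : Site d) : a (i - j) = a (j - i) := by
  rw [← ha.symm, neg_sub]

include ha in
open Classical in
lemma Q_update (u : Site d → ℝ) (k : Site d) (hk : k ∈ B) (c : ℝ) :
    Q a B (fun i => u i + if i = k then c else 0) =
      Q a B u + 2 * c * ∑ j ∈ B, a (k - j) * u j + c ^ 2 := by
  unfold Q
  have e1 : ∀ i j, a (i - j) * ((u i + if i = k then c else 0) * (u j + if j = k then c else 0)) =
      a (i - j) * (u i * u j) + (if j = k then a (i - j) * (u i * c) else 0) +
      ((if i = k then a (i - j) * (c * u j) else 0) +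
      (if i = k then (if j = k then a (i - j) * (c * c) else 0) else 0)) := by
    intro i j
    split_ifs <;> ring
  simp only [e1, Finset.sum_add_distrib, Finset.sum_ite_eq', hk, if_true]
  have e2 : ∑ i ∈ B, ∑ j ∈ B, (if i = k then a (i - j) * (c * u j) else 0) =
      ∑ j ∈ B, a (k - j) * (c * u j) := by
    rw [Finset.sum_comm]
    refine Finset.sum_congr rfl fun j _ => ?_
    rw [Finset.sum_ite_eq', if_pos hk]
  have e3 : ∑ i ∈ B, (if i = k then (if k ∈ B then a (i - k) * (c * c) else 0) else 0) = c ^ 2 := by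
    rw [Finset.sum_ite_eq', if_pos hk, if_pos hk, sub_self, ha.zero]; ring
  have e3' : ∑ i ∈ B, (if i = k then a (i - k) * (c * c) else 0) = c ^ 2 := by
    rw [Finset.sum_ite_eq', if_pos hk, sub_self, ha.zero]; ring
  have e4 : ∑ i ∈ B, ∑ j ∈ B, (if i = k then (if j = k then a (i - j) * (c * c) else 0) else 0) =
      c ^ 2 := by
    rw [← e3']
    refine Finset.sum_congr rfl fun i _ => ?_
    split_ifs with h
    · rw [Finset.sum_ite_eq', if_pos hk]
    · simp
  have e5 : ∑ i ∈ B, a (i - k) * (u i * c) = c * ∑ j ∈ B, a (k - j) * u j := by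
    rw [Finset.mul_sum]
    refine Finset.sum_congr rfl fun i _ => ?_
    rw [a_comm ha]; ring
  have e6 : ∑ j ∈ B, a (k - j) * (c * u j) = c * ∑ j ∈ B, a (k - j) * u j := by
    rw [Finset.mul_sum]
    refine Finset.sum_congr rfl fun i _ => ?_
    ring
  rw [e2, e4, e5, e6]
  ring

/-- truncated queue lengths -/
noncomputable def vv (K : ℕ) (x : Conf d) (i : Site d) : ℝ := ((min (x i) K : ℕ) : ℝ)

/-- truncated energy -/
noncomputable def U (a : Site d → ℝ) (B : Finset (Site d)) (K : ℕ) (x : Conf d) : ℝ :=
  Q a B (vv K x)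

/-- the indicator of `x_i < K` -/
noncomputable def cc (K : ℕ) (x : Conf d) (i : Site d) : ℝ := if x i < K then 1 else 0

lemma vv_nonneg (x : Conf d) (i : Site d) : 0 ≤ vv K x i := Nat.cast_nonneg _

lemma vv_le (x : Conf d) (i : Site d) : vv K x i ≤ K := by
  unfold vv; exact_mod_cast min_le_right _ _

lemma vv_le' (x : Conf d) (i : Site d) : vv K x i ≤ x i := by
  unfold vv; exact_mod_cast min_le_left _ _

include ha in
lemma U_arrival (x : Conf d) (k : Site d) (hk : k ∈ B) :
    U a B K (x + Finsupp.single k 1) = U a B K x +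
      cc K x k * (2 * (∑ j ∈ B, a (k - j) * vv K x j) + 1) := by
  classical
  unfold U
  have h1 : vv K (x + Finsupp.single k 1) = fun i => vv K x i + if i = k then cc K x k else 0 := by
    ext i
    unfold vv cc
    rw [Finsupp.add_apply, Finsupp.single_apply]
    by_cases h : i = k
    · subst h
      rw [if_pos rfl, if_pos rfl]
      split_ifs with h2
      · rw [min_eq_left (by omega), min_eq_left (by omega)]; push_cast; ring
      · rw [min_eq_right (by omega), min_eq_right (by omega)]; ring
    · rw [if_neg (fun hc => h hc.symm), if_neg h]; simp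
  rw [h1, Q_update ha B (vv K x) k hk]
  unfold cc
  split_ifs <;> ring

include ha in
lemma U_departure (x : Conf d) (k : Site d) (hk : k ∈ B) (hx : 1 ≤ x k) :
    U a B K (x - Finsupp.single k 1) = U a B K x -
      (if x k ≤ K then 1 else 0) * (2 * (∑ j ∈ B, a (k - j) * vv K x j) - 1) := by
  classical
  unfold U
  have h1 : vv K (x - Finsupp.single k 1) =
      fun i => vv K x i + if i = k then -(if x k ≤ K then (1 : ℝ) else 0) else 0 := by
    ext i
    unfold vv
    rw [Finsupp.tsub_apply, Finsupp.single_apply]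
    by_cases h : i = k
    · subst h
      rw [if_pos rfl, if_pos rfl]
      split_ifs with h2
      · rw [min_eq_left (by omega), min_eq_left (by omega)]
        push_cast [hx]; ring
      · rw [min_eq_right (by omega), min_eq_right (by omega)]; ring
    · rw [if_neg (fun hc => h hc.symm), if_neg h]; simp
  rw [h1, Q_update ha B (vv K x) k hk]
  split_ifs <;> ring

/-- the column sums -/
noncomputable def AB (a : Site d → ℝ) (B : Finset (Site d)) (j : Site d) : ℝ :=
  ∑ i ∈ B, a (i - j)

include ha in
lemma swap (F : Site d → ℝ) :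
    ∑ k ∈ B, ∑ j ∈ B, a (k - j) * F k = ∑ k ∈ B, ∑ j ∈ B, a (k - j) * F j := by
  rw [Finset.sum_comm]
  refine Finset.sum_congr rfl fun k _ => Finset.sum_congr rfl fun j _ => ?_
  rw [a_comm ha]

include ha in
lemma S1_ge (x : Conf d) :
    ∑ j ∈ B, AB a B j * (cc K x j * x j) ≤
      ∑ k ∈ B, cc K x k * ∑ j ∈ B, a (k - j) * vv K x j := by
  have h1 : ∀ k j, a (k - j) * vv K x j - a (k - j) * (K * (1 - cc K x k)) ≤
      cc K x k * (a (k - j) * vv K x j) := by
    intro k j
    have h2 := vv_le K x j
    have h3 := vv_nonneg K x j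
    have h4 := ha.nonneg (k - j)
    unfold cc
    split_ifs
    · simp
    · simp only [zero_mul, sub_zero, mul_one]
      nlinarith
  have h2 : ∀ j, vv K x j - K * (1 - cc K x j) = cc K x j * x j := by
    intro j
    unfold vv cc
    split_ifs with h
    · rw [min_eq_left h.le]; ring
    · rw [min_eq_right (not_lt.1 h)]; ring
  calc ∑ j ∈ B, AB a B j * (cc K x j * x j)
      = ∑ j ∈ B, ∑ k ∈ B, a (k - j) * (vv K x j - K * (1 - cc K x j)) := by
        refine Finset.sum_congr rfl fun j _ => ?_
        unfold AB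
        rw [Finset.sum_mul, h2]
    _ = ∑ k ∈ B, ∑ j ∈ B, a (k - j) * vv K x j -
        ∑ k ∈ B, ∑ j ∈ B, a (k - j) * (K * (1 - cc K x j)) := by
        rw [Finset.sum_comm, ← Finset.sum_sub_distrib]
        refine Finset.sum_congr rfl fun k _ => ?_
        rw [← Finset.sum_sub_distrib]
        refine Finset.sum_congr rfl fun j _ => ?_
        ring
    _ = ∑ k ∈ B, ∑ j ∈ B, (a (k - j) * vv K x j - a (k - j) * (K * (1 - cc K x k))) := by
        rw [← swap ha B fun k => K * (1 - cc K x k), ← Finset.sum_sub_distrib]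
        refine Finset.sum_congr rfl fun k _ => ?_
        rw [← Finset.sum_sub_distrib]
    _ ≤ _ := by
        refine Finset.sum_le_sum fun k _ => ?_
        rw [Finset.mul_sum]
        exact Finset.sum_le_sum fun j _ => h1 k j

/-- number of boundary sites -/
noncomputable def bnd (a : Site d → ℝ) (lam : ℝ) (B : Finset (Site d)) : ℝ :=
  ∑ j ∈ B, if lam * AB a B j < 1 then 1 else 0

/-- number of sites of `B` with at least `K` customers -/
noncomputable def cnt (B : Finset (Site d)) (K : ℕ) (x : Conf d) : ℝ :=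
  ∑ j ∈ B, if K ≤ x j then 1 else 0

include ha hlam in
/-- **The drift of the truncated energy.** -/
theorem energy_drift (x : Conf d) (hx : x.support ⊆ B) :
    (lam * B.card + ∑ i ∈ x.support, R a x i) * U a B K x + (lam * B.card + 2 * K * cnt B (K + 1) x) ≤
      (∑ k ∈ B, lam * U a B K (x + Finsupp.single k 1) +
        ∑ k ∈ x.support, R a x k * U a B K (x - Finsupp.single k 1)) +
      ((lam + 2 * K) * cnt B K x + 2 * K * bnd a lam B) := by
  set m : Site d → ℝ := fun k => ∑ j ∈ B, a (k - j) * vv K x j with hm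
  have hm0 : ∀ k, 0 ≤ m k := fun k => Finset.sum_nonneg fun j _ =>
    mul_nonneg (ha.nonneg _) (vv_nonneg K x j)
  have hmi : ∀ k, m k ≤ interf a x k := by
    intro k
    rw [interf_eq x k B hx]
    exact Finset.sum_le_sum fun j _ => mul_le_mul_of_nonneg_left (vv_le' K x j) (ha.nonneg _)
  -- arrivals
  have e1 : ∑ k ∈ B, lam * U a B K (x + Finsupp.single k 1) = lam * B.card * U a B K x +
      (2 * lam * ∑ k ∈ B, cc K x k * m k + lam * ∑ k ∈ B, cc K x k) := by
    have h1 : ∀ k ∈ B, lam * U a B K (x + Finsupp.single k 1) =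
        lam * U a B K x + (2 * lam * (cc K x k * m k) + lam * cc K x k) := by
      intro k hk
      rw [U_arrival ha B K x k hk]; ring
    rw [Finset.sum_congr rfl h1, Finset.sum_add_distrib, Finset.sum_add_distrib, Finset.sum_const,
      nsmul_eq_mul, ← Finset.mul_sum, ← Finset.mul_sum]
    ring
  -- departures
  have e2 : (∑ i ∈ x.support, R a x i) * U a B K x - 2 * ∑ k ∈ B, (if x k ≤ K then (x k : ℝ) else 0) ≤
      ∑ k ∈ x.support, R a x k * U a B K (x - Finsupp.single k 1) := by
    have h1 : ∑ k ∈ B, (if x k ≤ K then (x k : ℝ) else 0) =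
        ∑ k ∈ x.support, (if x k ≤ K then (x k : ℝ) else 0) := by
      symm
      refine Finset.sum_subset hx fun k _ hk => ?_
      rw [Finsupp.notMem_support_iff.1 hk]; simp
    rw [h1, Finset.sum_mul, Finset.mul_sum, ← Finset.sum_sub_distrib]
    refine Finset.sum_le_sum fun k hk => ?_
    have hxk : 1 ≤ x k := Nat.one_le_iff_ne_zero.2 (Finsupp.mem_support_iff.1 hk)
    rw [U_departure ha B K x k (hx hk) hxk]
    have h2 : R a x k * m k ≤ x k := by
      calc R a x k * m k ≤ R a x k * interf a x k :=
            mul_le_mul_of_nonneg_left (hmi k) (R_nonneg ha x k)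
        _ = x k := R_mul ha x k
    have h3 := R_nonneg ha x k
    have h4 : R a x k * (U a B K x - (if x k ≤ K then 1 else 0) *
        (2 * (∑ j ∈ B, a (k - j) * vv K x j) - 1)) = R a x k * U a B K x -
        (if x k ≤ K then 1 else 0) * (2 * (R a x k * m k) - R a x k) := by
      simp only [hm]; ring
    rw [h4]
    split_ifs <;> nlinarith
  have e3 := S1_ge ha B K x
  -- pointwise part
  have e4 : lam * B.card + 2 * K * cnt B (K + 1) x ≤
      2 * lam * (∑ j ∈ B, AB a B j * (cc K x j * x j)) + lam * ∑ k ∈ B, cc K x k -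
        2 * ∑ k ∈ B, (if x k ≤ K then (x k : ℝ) else 0) +
      ((lam + 2 * K) * cnt B K x + 2 * K * bnd a lam B) := by
    have h1 : lam * B.card = ∑ j ∈ B, lam := by simp [mul_comm]
    unfold cnt bnd
    rw [h1, Finset.mul_sum, Finset.mul_sum, Finset.mul_sum, Finset.mul_sum, Finset.mul_sum,
      Finset.mul_sum, ← Finset.sum_add_distrib, ← Finset.sum_add_distrib, ← Finset.sum_sub_distrib,
      ← Finset.sum_add_distrib, ← Finset.sum_add_distrib]
    refine Finset.sum_le_sum fun j _ => ?_
    have hAB : 0 ≤ AB a B j := Finset.sum_nonneg fun i _ => ha.nonneg _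
    have hKx : (0 : ℝ) ≤ x j := Nat.cast_nonneg _
    have hK0 : (0 : ℝ) ≤ K := Nat.cast_nonneg _
    unfold cc
    by_cases h2 : x j < K
    · have hxK : (x j : ℝ) ≤ K := by exact_mod_cast h2.le
      have h3 : ¬ (K + 1 ≤ x j) := by omega
      have h4 : ¬ (K ≤ x j) := by omega
      rw [if_pos h2, if_neg h3, if_neg h4, if_pos h2.le]
      by_cases h5 : lam * AB a B j < 1
      · rw [if_pos h5]
        have : 0 ≤ lam * AB a B j * x j := mul_nonneg (mul_nonneg hlam.le hAB) hKx
        nlinarith
      · rw [if_neg h5]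
        push Not at h5
        nlinarith
    · have h4 : K ≤ x j := by omega
      have hb : (0 : ℝ) ≤ 2 * K * (if lam * AB a B j < 1 then 1 else 0) := by positivity
      rw [if_neg h2, if_pos h4]
      by_cases h5 : K + 1 ≤ x j
      · have h6 : ¬ (x j ≤ K) := by omega
        rw [if_pos h5, if_neg h6]
        nlinarith
      · have h6 : x j = K := by omega
        rw [if_neg h5, if_pos h6.le, h6]
        nlinarith
  rw [e1]
  have e5 : 2 * lam * (∑ j ∈ B, AB a B j * (cc K x j * x j)) ≤
      2 * lam * ∑ k ∈ B, cc K x k * m k := mul_le_mul_of_nonneg_left e3 (by linarith)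
  linarith

include ha in
lemma U_nonneg (x : Conf d) : 0 ≤ U a B K x :=
  Finset.sum_nonneg fun i _ => Finset.sum_nonneg fun j _ =>
    mul_nonneg (ha.nonneg _) (mul_nonneg (vv_nonneg K x i) (vv_nonneg K x j))

include ha in
lemma AB_le (j : Site d) : AB a B j ≤ ∑ᶠ i, a i := by
  classical
  unfold AB
  have h1 : ∑ᶠ i, a i = ∑ᶠ i, a (i - j) := (finsum_comp_equiv (Equiv.subRight j)).symm
  rw [h1]
  have hfin : (Function.support fun i => a (i - j)).Finite := by
    have : (Function.support fun i => a (i - j)) = (fun i => i + j) '' Function.support a := by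
      ext i
      simp only [Function.mem_support, Set.mem_image]
      constructor
      · intro h; exact ⟨i - j, h, by abel⟩
      · rintro ⟨k, hk, rfl⟩
        have : k + j - j = k := by abel
        rwa [this]
    rw [this]
    exact ha.finite.image _
  rw [finsum_eq_sum_of_support_subset (s := B ∪ hfin.toFinset) _ (by
    intro i hi
    simp only [Finset.coe_union, Set.Finite.coe_toFinset, Set.mem_union]
    exact Or.inr hi)]
  exact Finset.sum_le_sum_of_subset_of_nonneg Finset.subset_union_left
    fun i _ _ => ha.nonneg _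

include ha in
lemma U_le (x : Conf d) : U a B K x ≤ (∑ᶠ i, a i) * K ^ 2 * B.card := by
  unfold U Q
  calc ∑ i ∈ B, ∑ j ∈ B, a (i - j) * (vv K x i * vv K x j) ≤
        ∑ i ∈ B, ∑ j ∈ B, a (i - j) * (K * K : ℝ) := by
        refine Finset.sum_le_sum fun i _ => Finset.sum_le_sum fun j _ => ?_
        refine mul_le_mul_of_nonneg_left ?_ (ha.nonneg _)
        exact mul_le_mul (vv_le K x i) (vv_le K x j) (vv_nonneg K x j) (Nat.cast_nonneg _)
    _ = ∑ j ∈ B, AB a B j * (K * K : ℝ) := by
        rw [Finset.sum_comm]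
        refine Finset.sum_congr rfl fun j _ => ?_
        unfold AB
        rw [Finset.sum_mul]
    _ ≤ ∑ j ∈ B, (∑ᶠ i, a i) * (K * K : ℝ) := by
        refine Finset.sum_le_sum fun j _ => ?_
        exact mul_le_mul_of_nonneg_right (AB_le ha B j) (by positivity)
    _ = _ := by rw [Finset.sum_const, nsmul_eq_mul]; ring

end Q288.IQN
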