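import Mathlib
import Pool.Agent.Q288.IQN.Energy

/-!
# The integrated energy inequality
-/

set_option autoImplicit false
set_option linter.unusedSectionVars false

namespace Q288.IQN

open MeasureTheory ProbabilityTheory Pool.Agent.W845.CP Filter Topology Set Q288.Jump
open scoped ENNReal

variable {d : ℕ} {a : Site d → ℝ} (ha : IsInterference a) {lam : ℝ} (hlam : 0 < lam)

/-- indicator of `k ≤ y j` -/
noncomputable def ind (k : ℕ) (j : Site d) (y : Conf d) : ℝ≥0∞ := if k ≤ y j then 1 else 0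

lemma ind_le (k : ℕ) (j : Site d) (y : Conf d) : ind k j y ≤ 1 := by
  unfold ind; split_ifs <;> simp

/-- probability of `k ≤ x_j(u)` in the volume `B` -/
noncomputable def tl (a : Site d → ℝ) (lam : ℝ) (B : Finset (Site d)) (k : ℕ) (j : Site d)
    (u : ℝ) : ℝ≥0∞ :=
  pr (jump a lam B) (goodJ_jump a lam B) 0 u (ind k j)

section
variable (B : Finset (Site d)) (hB : B.Nonempty)

include ha hlam hB

lemma rt_le' (y : Conf d) (hy : y.support ⊆ B) :
    jump a lam B y Set.univ ≤ ENNReal.ofReal ((lam + 1) * B.card) := by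
  rw [jump_univ hlam B hB]; exact rt_le ha hlam B y hy _ le_rfl

lemma Lpos : 0 < (lam + 1) * (B.card : ℝ) := by
  have : (0 : ℝ) < B.card := by exact_mod_cast hB.card_pos
  positivity

lemma regB : ∀ᵐ ω ∂(law (jump a lam B) (goodJ_jump a lam B) 0), Reg ω :=
  reg_of_bdd _ _ 0 (fun y => y.support ⊆ B) (by simp) (fun y hy => inv_step hlam B hB y hy)
    _ (Lpos ha hlam B hB) (fun y hy => rt_le' ha hlam B hB y hy)

lemma pr_monoB (t : ℝ) (f g : Conf d → ℝ≥0∞) (h : ∀ y : Conf d, y.support ⊆ B → f y ≤ g y) :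
    pr (jump a lam B) (goodJ_jump a lam B) 0 t f ≤
      pr (jump a lam B) (goodJ_jump a lam B) 0 t g :=
  pr_mono _ _ 0 (fun y => y.support ⊆ B) (by simp) (fun y hy => inv_step hlam B hB y hy) t f g h

theorem energy_int (K : ℕ) {T : ℝ} (hT : 0 ≤ T) :
    ENNReal.ofReal (lam * B.card) * ENNReal.ofReal T +
      ENNReal.ofReal (2 * K) * ∑ j ∈ B, ∫⁻ u in Ioc 0 T, tl a lam B (K + 1) j u ≤
    ENNReal.ofReal ((∑ᶠ i, a i) * K ^ 2 * B.card) +
      (ENNReal.ofReal (lam + 2 * K) * (∑ j ∈ B, ∫⁻ u in Ioc 0 T, tl a lam B K j u) +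
        ENNReal.ofReal (2 * K * bnd a lam B) * ENNReal.ofReal T) := by
  have hreg := regB ha hlam B hB
  have hbnd : 0 ≤ bnd a lam B := Finset.sum_nonneg fun j _ => by split_ifs <;> norm_num
  have hcnt : ∀ k (y : Conf d), 0 ≤ cnt B k y := fun k y =>
    Finset.sum_nonneg fun j _ => by split_ifs <;> norm_num
  have hcntE : ∀ k (y : Conf d), ENNReal.ofReal (cnt B k y) = ∑ j ∈ B, ind k j y := by
    intro k y
    unfold cnt ind
    rw [ENNReal.ofReal_sum_of_nonneg (fun j _ => by split_ifs <;> norm_num)]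
    refine Finset.sum_congr rfl fun j _ => ?_
    split_ifs <;> simp
  have h := drift_ge (jump a lam B) (goodJ_jump a lam B) 0 (fun y => y.support ⊆ B) (by simp)
    (fun y hy => inv_step hlam B hB y hy) _ (Lpos ha hlam B hB)
    (fun y hy => rt_le' ha hlam B hB y hy)
    (fun y => ENNReal.ofReal (U a B K y))
    (fun y => ENNReal.ofReal (lam * B.card) + ENNReal.ofReal (2 * K) * ∑ j ∈ B, ind (K + 1) j y)
    (fun y => ENNReal.ofReal (lam + 2 * K) * ∑ j ∈ B, ind K j y +
      ENNReal.ofReal (2 * K * bnd a lam B))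
    (ENNReal.ofReal ((∑ᶠ i, a i) * K ^ 2 * B.card)) ENNReal.ofReal_ne_top
    (fun y _ => ENNReal.ofReal_le_ofReal (U_le ha B K y))
    (fun y hy => by
      rw [jump_univ hlam B hB, jump_lint hlam B hB]
      have e1 : rt a lam B y = ENNReal.ofReal (lam * B.card + ∑ i ∈ y.support, R a y i) := by
        unfold rt
        rw [ENNReal.ofReal_add (by positivity) (Finset.sum_nonneg fun i _ => R_nonneg ha y i),
          ENNReal.ofReal_sum_of_nonneg fun i _ => R_nonneg ha y i]
        congr 1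
        rw [Finset.sum_const, nsmul_eq_mul, mul_comm lam, ENNReal.ofReal_mul (Nat.cast_nonneg _),
          ENNReal.ofReal_natCast]
      have e2 : rf a lam B (fun y => ENNReal.ofReal (U a B K y)) y =
          ENNReal.ofReal (∑ k ∈ B, lam * U a B K (y + Finsupp.single k 1) +
          ∑ k ∈ y.support, R a y k * U a B K (y - Finsupp.single k 1)) := by
        unfold rf
        rw [ENNReal.ofReal_add (Finset.sum_nonneg fun i _ => mul_nonneg hlam.le (U_nonneg ha B K _))
          (Finset.sum_nonneg fun i _ => mul_nonneg (R_nonneg ha y i) (U_nonneg ha B K _)),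
          ENNReal.ofReal_sum_of_nonneg fun i _ => mul_nonneg hlam.le (U_nonneg ha B K _),
          ENNReal.ofReal_sum_of_nonneg fun i _ => mul_nonneg (R_nonneg ha y i) (U_nonneg ha B K _)]
        congr 1
        · refine Finset.sum_congr rfl fun i _ => ?_
          rw [ENNReal.ofReal_mul hlam.le]
        · refine Finset.sum_congr rfl fun i _ => ?_
          rw [ENNReal.ofReal_mul (R_nonneg ha y i)]
          rfl
      have hR : 0 ≤ ∑ i ∈ y.support, R a y i := Finset.sum_nonneg fun i _ => R_nonneg ha y i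
      have hlB : 0 ≤ lam * B.card := by positivity
      have hS : 0 ≤ ∑ k ∈ B, lam * U a B K (y + Finsupp.single k 1) +
          ∑ k ∈ y.support, R a y k * U a B K (y - Finsupp.single k 1) :=
        add_nonneg (Finset.sum_nonneg fun i _ => mul_nonneg hlam.le (U_nonneg ha B K _))
          (Finset.sum_nonneg fun i _ => mul_nonneg (R_nonneg ha y i) (U_nonneg ha B K _))
      have hc1 := hcnt (K + 1) y
      have hc2 := hcnt K y
      rw [e1, e2, ← hcntE, ← hcntE, ← ENNReal.ofReal_mul (by positivity),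
        ← ENNReal.ofReal_mul (by positivity), ← ENNReal.ofReal_mul (by positivity),
        ← ENNReal.ofReal_add (by positivity) (by positivity),
        ← ENNReal.ofReal_add (mul_nonneg (by positivity) (U_nonneg ha B K y)) (by positivity),
        ← ENNReal.ofReal_add (by positivity) (by positivity),
        ← ENNReal.ofReal_add hS (by positivity)]
      exact ENNReal.ofReal_le_ofReal (energy_drift ha hlam B K y hy)) hT
  have hvol : volume (Ioc (0 : ℝ) T) = ENNReal.ofReal T := by
    rw [Real.volume_Ioc, sub_zero]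
  have s1 : ∀ k, ∀ u, pr (jump a lam B) (goodJ_jump a lam B) 0 u (fun y => ∑ j ∈ B, ind k j y) =
      ∑ j ∈ B, tl a lam B k j u := by
    intro k u
    unfold tl pr
    have hm0 : Measurable fun ω : ℕ → Conf d × ℝ => stateAt ω u := measurable_stateAt u
    rw [lintegral_finsetSum]
    intro j _
    exact (measurable_of_countable (ind k j)).comp hm0
  have s2 : ∀ k, ∫⁻ u in Ioc 0 T, ∑ j ∈ B, tl a lam B k j u =
      ∑ j ∈ B, ∫⁻ u in Ioc 0 T, tl a lam B k j u := by
    intro k
    rw [lintegral_finsetSum']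
    intro j _
    exact aemeas_pr (jump a lam B) (goodJ_jump a lam B) 0 hreg (ind k j) T
  have e3 : ∫⁻ u in Ioc 0 T, pr (jump a lam B) (goodJ_jump a lam B) 0 u
      (fun y => ENNReal.ofReal (lam * B.card) + ENNReal.ofReal (2 * K) * ∑ j ∈ B, ind (K + 1) j y) =
      ENNReal.ofReal (lam * B.card) * ENNReal.ofReal T +
      ENNReal.ofReal (2 * K) * ∑ j ∈ B, ∫⁻ u in Ioc 0 T, tl a lam B (K + 1) j u := by
    have e4 : ∀ u, pr (jump a lam B) (goodJ_jump a lam B) 0 u
        (fun y => ENNReal.ofReal (lam * B.card) + ENNReal.ofReal (2 * K) *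
          ∑ j ∈ B, ind (K + 1) j y) = ENNReal.ofReal (lam * B.card) + ENNReal.ofReal (2 * K) *
          ∑ j ∈ B, tl a lam B (K + 1) j u := by
      intro u
      rw [pr_add, pr_const, pr_const_mul, s1]
    simp only [e4]
    rw [lintegral_add_left measurable_const, setLIntegral_const, hvol,
      lintegral_const_mul' _ _ ENNReal.ofReal_ne_top, s2]
  have e5 : ∫⁻ u in Ioc 0 T, pr (jump a lam B) (goodJ_jump a lam B) 0 u
      (fun y => ENNReal.ofReal (lam + 2 * K) * ∑ j ∈ B, ind K j y +
      ENNReal.ofReal (2 * K * bnd a lam B)) =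
      ENNReal.ofReal (lam + 2 * K) * (∑ j ∈ B, ∫⁻ u in Ioc 0 T, tl a lam B K j u) +
        ENNReal.ofReal (2 * K * bnd a lam B) * ENNReal.ofReal T := by
    have e4 : ∀ u, pr (jump a lam B) (goodJ_jump a lam B) 0 u
        (fun y => ENNReal.ofReal (lam + 2 * K) * ∑ j ∈ B, ind K j y +
      ENNReal.ofReal (2 * K * bnd a lam B)) = ENNReal.ofReal (lam + 2 * K) *
          ∑ j ∈ B, tl a lam B K j u + ENNReal.ofReal (2 * K * bnd a lam B) := by
      intro u
      rw [pr_add, pr_const, pr_const_mul, s1]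
    simp only [e4]
    rw [lintegral_add_right _ measurable_const, setLIntegral_const, hvol,
      lintegral_const_mul' _ _ ENNReal.ofReal_ne_top, s2]
  rw [e3, e5] at h
  have e6 : pr (jump a lam B) (goodJ_jump a lam B) 0 T (fun y => ENNReal.ofReal (U a B K y)) ≤
      ENNReal.ofReal ((∑ᶠ i, a i) * K ^ 2 * B.card) := by
    calc _ ≤ pr (jump a lam B) (goodJ_jump a lam B) 0 T
          (fun _ => ENNReal.ofReal ((∑ᶠ i, a i) * K ^ 2 * B.card)) :=
          pr_monoB ha hlam B hB T _ _ fun y _ => ENNReal.ofReal_le_ofReal (U_le ha B K y)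
      _ = _ := pr_const _ _ _ _ _
  calc _ ≤ _ := (le_add_left le_rfl).trans h
    _ ≤ _ := by gcongr

end

/-! ### The boxes -/

lemma mem_box (m : ℕ) (x : Site d) : x ∈ box d m ↔ ∀ i, -(m : ℤ) ≤ x i ∧ x i ≤ m := by
  unfold box
  rw [Fintype.mem_piFinset]
  simp

lemma zero_mem_box (m : ℕ) : (0 : Site d) ∈ box d m := by
  rw [mem_box]; intro i; simp

lemma box_nonempty (m : ℕ) : (box d m).Nonempty := ⟨0, zero_mem_box m⟩

lemma add_mem_box {m n : ℕ} {x y : Site d} (hx : x ∈ box d m) (hy : y ∈ box d n) :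
    x + y ∈ box d (m + n) := by
  rw [mem_box] at *
  intro i
  have h1 := hx i
  have h2 := hy i
  simp only [Pi.add_apply, Nat.cast_add]
  constructor <;> linarith [h1.1, h1.2, h2.1, h2.2]

lemma neg_mem_box {m : ℕ} {x : Site d} (hx : x ∈ box d m) : -x ∈ box d m := by
  rw [mem_box] at *
  intro i
  have h1 := hx i
  simp only [Pi.neg_apply]
  constructor <;> linarith [h1.1, h1.2]

lemma box_mono {m n : ℕ} (h : m ≤ n) : box d m ⊆ box d n := by
  intro x hx
  rw [mem_box] at *
  intro i
  have h1 := hx i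
  have : (m : ℤ) ≤ n := by exact_mod_cast h
  constructor <;> linarith [h1.1, h1.2]

lemma card_box (m : ℕ) : (box d m).card = (2 * m + 1) ^ d := by
  unfold box
  rw [Fintype.card_piFinset]
  simp only [Int.card_Icc, Finset.prod_const, Finset.card_univ, Fintype.card_fin]
  congr 1
  omega

section

include ha hlam

/-- monotonicity in the volume -/
lemma tl_mono (B B' : Finset (Site d)) (hB : B.Nonempty) (c : Site d) (h : ∀ i ∈ B, i + c ∈ B')
    (k : ℕ) (j : Site d) {t : ℝ} (ht : 0 ≤ t) : tl a lam B k j t ≤ tl a lam B' k (j + c) t := by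
  unfold tl
  refine pr_le ha hlam c B B' hB h _ _ (ind_le k j) (ind_le k _) (fun x y hxy => ?_) ht
  unfold ind
  have := hxy j
  split_ifs <;> simp <;> omega

/-- The marginal tail of the infinite system. -/
lemma tl_box_le (n : ℕ) (k : ℕ) (j : Site d) (hj : j ∈ box d n) {t : ℝ} (ht : 0 ≤ t) :
    tl a lam (box d n) k j t ≤ tl a lam (box d (n + n)) k 0 t := by
  have := tl_mono ha hlam (box d n) (box d (n + n)) (box_nonempty n) (-j)
    (fun i hi => add_mem_box hi (neg_mem_box hj)) k j ht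
  rwa [add_neg_cancel] at this

lemma le_tl_box (m r : ℕ) (k : ℕ) (j : Site d) (hj : j ∈ box d m) {t : ℝ} (ht : 0 ≤ t) :
    tl a lam (box d r) k 0 t ≤ tl a lam (box d (m + r)) k j t := by
  have := tl_mono ha hlam (box d r) (box d (m + r)) (box_nonempty r) j
    (fun i hi => by rw [add_comm m r]; exact add_mem_box hi hj) k 0 ht
  rwa [zero_add] at this

lemma tl_box_mono (k : ℕ) {t : ℝ} (ht : 0 ≤ t) :
    Monotone fun n => tl a lam (box d n) k 0 t := by
  intro m n hmn
  have := tl_mono ha hlam (box d m) (box d n) (box_nonempty m) 0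
    (fun i hi => by rw [add_zero]; exact box_mono hmn hi) k 0 ht
  rwa [add_zero] at this

end

include ha in
lemma exists_range : ∃ r : ℕ, ∀ i, a i ≠ 0 → i ∈ box d r := by
  classical
  have h := ha.finite
  obtain ⟨r, hr⟩ : ∃ r : ℕ, ∀ i ∈ h.toFinset, ∀ l, (i l).natAbs ≤ r := by
    refine ⟨h.toFinset.sup fun i => Finset.univ.sup fun l => (i l).natAbs, fun i hi l => ?_⟩
    exact (Finset.le_sup (f := fun l => (i l).natAbs) (Finset.mem_univ l)).trans
      (Finset.le_sup (f := fun i : Site d => Finset.univ.sup fun l => (i l).natAbs) hi)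
  refine ⟨r, fun i hi => ?_⟩
  rw [mem_box]
  intro l
  have := hr i (by simpa using hi) l
  omega

include ha in
lemma AB_box (r0 : ℕ) (hr0 : ∀ i, a i ≠ 0 → i ∈ box d r0) (m r : ℕ) (hr : r0 ≤ r) (j : Site d)
    (hj : j ∈ box d m) : AB a (box d (m + r)) j = ∑ᶠ i, a i := by
  unfold AB
  have h1 : ∑ᶠ i, a i = ∑ᶠ i, a (i - j) := (finsum_comp_equiv (Equiv.subRight j)).symm
  rw [h1]
  symm
  refine finsum_eq_sum_of_support_subset _ fun i hi => ?_
  have h2 : i - j ∈ box d r := box_mono hr (hr0 _ hi)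
  have h3 := add_mem_box hj h2
  have : j + (i - j) = i := by abel
  rw [this] at h3
  exact h3

include ha in
lemma bnd_box (hA : 1 ≤ lam * ∑ᶠ i, a i) (r0 : ℕ) (hr0 : ∀ i, a i ≠ 0 → i ∈ box d r0)
    (m r : ℕ) (hr : r0 ≤ r) :
    bnd a lam (box d (m + r)) ≤ (box d (m + r)).card - (box d m).card := by
  classical
  unfold bnd
  have h1 : ∑ j ∈ box d (m + r), (if lam * AB a (box d (m + r)) j < 1 then (1 : ℝ) else 0) ≤
      ∑ j ∈ box d (m + r), (1 - if j ∈ box d m then (1 : ℝ) else 0) := by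
    refine Finset.sum_le_sum fun j _ => ?_
    by_cases hj : j ∈ box d m
    · rw [AB_box ha r0 hr0 m r hr j hj, if_neg (not_lt.2 hA), if_pos hj]; norm_num
    · rw [if_neg hj]; split_ifs <;> norm_num
  refine h1.trans (le_of_eq ?_)
  rw [Finset.sum_sub_distrib, Finset.sum_ite_mem,
    Finset.inter_eq_right.2 (box_mono (Nat.le_add_right m r))]
  simp

end Q288.IQN
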