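import Mathlib
import Pool.Agent.Q288.IQN.Int

/-!
# Instability of interference queueing networks
-/

set_option autoImplicit false
set_option linter.unusedSectionVars false

namespace Q288.IQN

open MeasureTheory ProbabilityTheory Pool.Agent.W845.CP Filter Topology Set Q288.Jump
open scoped ENNReal

variable {d : ℕ} {a : Site d → ℝ} (ha : IsInterference a) {lam : ℝ} (hlam : 0 < lam)

/-- The marginal tail of the infinite system. -/
noncomputable def pinf (a : Site d → ℝ) (lam : ℝ) (k : ℕ) (u : ℝ) : ℝ≥0∞ :=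
  ⨆ n, tl a lam (box d n) k 0 u

section

include ha hlam

lemma tl_le_one (B : Finset (Site d)) (hB : B.Nonempty) (k : ℕ) (j : Site d) (u : ℝ) :
    tl a lam B k j u ≤ 1 := by
  unfold tl
  calc _ ≤ pr (jump a lam B) (goodJ_jump a lam B) 0 u (fun _ => 1) :=
        pr_monoB ha hlam B hB u _ _ fun y _ => ind_le k j y
    _ = 1 := pr_const _ _ _ _ _

lemma pinf_le_one (k : ℕ) (u : ℝ) : pinf a lam k u ≤ 1 :=
  iSup_le fun n => tl_le_one ha hlam _ (box_nonempty n) k 0 u

lemma aemeas_tl (B : Finset (Site d)) (hB : B.Nonempty) (k : ℕ) (j : Site d) (T : ℝ) :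
    AEMeasurable (tl a lam B k j) (volume.restrict (Ioc 0 T)) :=
  aemeas_pr (jump a lam B) (goodJ_jump a lam B) 0 (regB ha hlam B hB) (ind k j) T

lemma aemeas_pinf (k : ℕ) (T : ℝ) :
    AEMeasurable (pinf a lam k) (volume.restrict (Ioc 0 T)) := by
  unfold pinf
  exact AEMeasurable.iSup fun n => aemeas_tl ha hlam _ (box_nonempty n) k 0 T

lemma int_le {F : ℝ → ℝ≥0∞} (hF : ∀ u, F u ≤ 1) (T : ℝ) :
    ∫⁻ u in Ioc 0 T, F u ≤ ENNReal.ofReal T := by
  calc _ ≤ ∫⁻ u in Ioc 0 T, 1 := lintegral_mono hF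
    _ = _ := by rw [setLIntegral_const, Real.volume_Ioc, sub_zero, one_mul]

/-- The inequality in a box, in terms of the infinite system. -/
lemma box_ineq (hA : 1 ≤ lam * ∑ᶠ i, a i) (r0 : ℕ) (hr0 : ∀ i, a i ≠ 0 → i ∈ box d r0)
    (K : ℕ) {T : ℝ} (hT : 0 ≤ T) (r : ℕ) (hr : r0 ≤ r) (m : ℕ) :
    lam * ((box d (m + r)).card : ℝ) * T + 2 * K * (((box d m).card : ℝ) *
        (∫⁻ u in Ioc 0 T, tl a lam (box d r) (K + 1) 0 u).toReal) ≤
      (∑ᶠ i, a i) * K ^ 2 * (box d (m + r)).card +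
      ((lam + 2 * K) * ((box d (m + r)).card * (∫⁻ u in Ioc 0 T, pinf a lam K u).toReal) +
        2 * K * ((box d (m + r)).card - (box d m).card) * T) := by
  set c' : ℝ := ((box d (m + r)).card : ℝ) with hc'
  set c : ℝ := ((box d m).card : ℝ) with hc
  have hcc : c ≤ c' := by
    rw [hc, hc']
    exact_mod_cast Finset.card_le_card (box_mono (Nat.le_add_right m r))
  have hc0 : 0 ≤ c := Nat.cast_nonneg _
  have hA0 : 0 ≤ ∑ᶠ i, a i := finsum_nonneg ha.nonneg
  have h := energy_int ha hlam (box d (m + r)) (box_nonempty _) K hT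
  set X := ∫⁻ u in Ioc 0 T, tl a lam (box d r) (K + 1) 0 u with hX
  set Y := ∫⁻ u in Ioc 0 T, pinf a lam K u with hY
  have hXfin : X ≠ ⊤ := ne_top_of_le_ne_top ENNReal.ofReal_ne_top
    (int_le ha hlam (fun u => tl_le_one ha hlam _ (box_nonempty r) _ _ u) T)
  have hYfin : Y ≠ ⊤ := ne_top_of_le_ne_top ENNReal.ofReal_ne_top
    (int_le ha hlam (fun u => pinf_le_one ha hlam K u) T)
  have h1 : ENNReal.ofReal c * X ≤
      ∑ j ∈ box d (m + r), ∫⁻ u in Ioc 0 T, tl a lam (box d (m + r)) (K + 1) j u := by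
    calc ENNReal.ofReal c * X = ∑ j ∈ box d m, X := by
          rw [Finset.sum_const, nsmul_eq_mul, hc, ENNReal.ofReal_natCast]
      _ ≤ ∑ j ∈ box d m, ∫⁻ u in Ioc 0 T, tl a lam (box d (m + r)) (K + 1) j u := by
          refine Finset.sum_le_sum fun j hj => ?_
          refine setLIntegral_mono' measurableSet_Ioc fun u hu => ?_
          exact le_tl_box ha hlam m r (K + 1) j hj hu.1.le
      _ ≤ _ := Finset.sum_le_sum_of_subset (box_mono (Nat.le_add_right m r))
  have h2 : ∑ j ∈ box d (m + r), ∫⁻ u in Ioc 0 T, tl a lam (box d (m + r)) K j u ≤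
      ENNReal.ofReal c' * Y := by
    calc _ ≤ ∑ j ∈ box d (m + r), Y := by
          refine Finset.sum_le_sum fun j hj => ?_
          refine setLIntegral_mono' measurableSet_Ioc fun u hu => ?_
          exact (tl_box_le ha hlam (m + r) K j hj hu.1.le).trans
            (le_iSup (fun n => tl a lam (box d n) K 0 u) _)
      _ = _ := by rw [Finset.sum_const, nsmul_eq_mul, hc', ENNReal.ofReal_natCast]
  have h3 := bnd_box ha hA r0 hr0 m r hr
  have h4 : ENNReal.ofReal (lam * c') * ENNReal.ofReal T +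
      ENNReal.ofReal (2 * K) * (ENNReal.ofReal c * X) ≤
      ENNReal.ofReal ((∑ᶠ i, a i) * K ^ 2 * c') +
      (ENNReal.ofReal (lam + 2 * K) * (ENNReal.ofReal c' * Y) +
        ENNReal.ofReal (2 * K * (c' - c)) * ENNReal.ofReal T) := by
    refine le_trans (by gcongr) (h.trans ?_)
    gcongr
  have h5 := ENNReal.toReal_mono (by finiteness) h4
  have hXr : (ENNReal.ofReal (2 * K) * (ENNReal.ofReal c * X)).toReal = 2 * K * (c * X.toReal) := by
    rw [ENNReal.toReal_mul, ENNReal.toReal_mul, ENNReal.toReal_ofReal (by positivity),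
      ENNReal.toReal_ofReal hc0]
  have hYr : (ENNReal.ofReal (lam + 2 * K) * (ENNReal.ofReal c' * Y)).toReal =
      (lam + 2 * K) * (c' * Y.toReal) := by
    rw [ENNReal.toReal_mul, ENNReal.toReal_mul, ENNReal.toReal_ofReal (by positivity),
      ENNReal.toReal_ofReal (hc0.trans hcc)]
  rw [ENNReal.toReal_add (by finiteness) (by finiteness),
    ENNReal.toReal_add (by finiteness) (by finiteness),
    ENNReal.toReal_add (by finiteness) (by finiteness), hXr, hYr, ENNReal.toReal_mul,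
    ENNReal.toReal_mul, ENNReal.toReal_ofReal (mul_nonneg hlam.le (hc0.trans hcc)),
    ENNReal.toReal_ofReal hT,
    ENNReal.toReal_ofReal (mul_nonneg (mul_nonneg hA0 (by positivity)) (hc0.trans hcc)),
    ENNReal.toReal_ofReal (mul_nonneg (by positivity) (by linarith))] at h5
  exact h5

lemma card_ratio (r : ℕ) : Tendsto (fun m : ℕ => ((box d m).card : ℝ) / (box d (m + r)).card)
    atTop (𝓝 1) := by
  have h1 : ∀ m : ℕ, ((box d m).card : ℝ) / (box d (m + r)).card =
      (1 - 2 * r / (2 * (m + r : ℕ) + 1 : ℝ)) ^ d := by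
    intro m
    rw [card_box, card_box]
    push_cast
    rw [← div_pow]
    congr 1
    field_simp
    ring
  simp only [h1]
  have h2 : Tendsto (fun m : ℕ => (2 * r : ℝ) / (2 * (m + r : ℕ) + 1 : ℝ)) atTop (𝓝 0) := by
    refine Tendsto.const_div_atTop ?_ _
    refine tendsto_atTop_mono (fun m => ?_) tendsto_natCast_atTop_atTop
    push_cast
    have : (0 : ℝ) ≤ m := Nat.cast_nonneg _
    have : (0 : ℝ) ≤ r := Nat.cast_nonneg _
    linarith
  have h3 := ((tendsto_const_nhds (x := (1 : ℝ))).sub h2).pow d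
  simpa using h3

/-- The inequality for the infinite system, first form. -/
lemma ineq_r (hA : 1 ≤ lam * ∑ᶠ i, a i) (r0 : ℕ) (hr0 : ∀ i, a i ≠ 0 → i ∈ box d r0)
    (K : ℕ) {T : ℝ} (hT : 0 ≤ T) (r : ℕ) (hr : r0 ≤ r) :
    lam * T + 2 * K * (∫⁻ u in Ioc 0 T, tl a lam (box d r) (K + 1) 0 u).toReal ≤
      (∑ᶠ i, a i) * K ^ 2 + (lam + 2 * K) * (∫⁻ u in Ioc 0 T, pinf a lam K u).toReal := by
  obtain ⟨X, hX⟩ : ∃ X, X = (∫⁻ u in Ioc 0 T, tl a lam (box d r) (K + 1) 0 u).toReal := ⟨_, rfl⟩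
  obtain ⟨Y, hY⟩ : ∃ Y, Y = (∫⁻ u in Ioc 0 T, pinf a lam K u).toReal := ⟨_, rfl⟩
  rw [← hX, ← hY]
  have h1 := card_ratio ha hlam (d := d) r
  have h2 : Tendsto (fun m : ℕ => lam * T + 2 * K *
      (((box d m).card : ℝ) / (box d (m + r)).card * X)) atTop (𝓝 (lam * T + 2 * K * (1 * X))) :=
    ((h1.mul_const X).const_mul _).const_add _
  have h3 : Tendsto (fun m : ℕ => (∑ᶠ i, a i) * K ^ 2 + ((lam + 2 * K) * Y +
      2 * K * (1 - ((box d m).card : ℝ) / (box d (m + r)).card) * T)) atTop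
      (𝓝 ((∑ᶠ i, a i) * K ^ 2 + ((lam + 2 * K) * Y + 2 * K * (1 - 1) * T))) :=
    ((((h1.const_sub 1).const_mul _).mul_const _).const_add _).const_add _
  have h4 := le_of_tendsto_of_tendsto' h2 h3 fun m => by
    have h5 := box_ineq ha hlam hA r0 hr0 K hT r hr m
    rw [← hX, ← hY] at h5
    have hc : (0 : ℝ) < (box d (m + r)).card := by
      exact_mod_cast (box_nonempty (d := d) (m + r)).card_pos
    have h6 := div_le_div_of_nonneg_right h5 hc.le
    refine le_trans (le_of_eq ?_) (h6.trans (le_of_eq ?_))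
    · field_simp
    · field_simp
  linarith

/-- The inequality for the infinite system. -/
lemma ineq_inf (hA : 1 ≤ lam * ∑ᶠ i, a i) (K : ℕ) {T : ℝ} (hT : 0 ≤ T) :
    lam * T + 2 * K * (∫⁻ u in Ioc 0 T, pinf a lam (K + 1) u).toReal ≤
      (∑ᶠ i, a i) * K ^ 2 + (lam + 2 * K) * (∫⁻ u in Ioc 0 T, pinf a lam K u).toReal := by
  obtain ⟨r0, hr0⟩ := exists_range ha
  have h1 : ∫⁻ u in Ioc 0 T, pinf a lam (K + 1) u =
      ⨆ r, ∫⁻ u in Ioc 0 T, tl a lam (box d r) (K + 1) 0 u := by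
    unfold pinf
    refine lintegral_iSup' (fun n => aemeas_tl ha hlam _ (box_nonempty n) _ 0 T) ?_
    rw [ae_restrict_iff' measurableSet_Ioc]
    exact Filter.Eventually.of_forall fun u hu => tl_box_mono ha hlam (K + 1) hu.1.le
  have hmono : Monotone fun r => ∫⁻ u in Ioc 0 T, tl a lam (box d r) (K + 1) 0 u := by
    intro r s hrs
    exact setLIntegral_mono' measurableSet_Ioc fun u hu =>
      tl_box_mono ha hlam (K + 1) hu.1.le hrs
  have h2 := tendsto_atTop_iSup hmono
  rw [← h1] at h2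
  have hfin : ∫⁻ u in Ioc 0 T, pinf a lam (K + 1) u ≠ ⊤ :=
    ne_top_of_le_ne_top ENNReal.ofReal_ne_top
      (int_le ha hlam (fun u => pinf_le_one ha hlam (K + 1) u) T)
  have h3 := (ENNReal.tendsto_toReal hfin).comp h2
  have h4 : Tendsto (fun r : ℕ => lam * T + 2 * K *
      (∫⁻ u in Ioc 0 T, tl a lam (box d r) (K + 1) 0 u).toReal) atTop
      (𝓝 (lam * T + 2 * K * (∫⁻ u in Ioc 0 T, pinf a lam (K + 1) u).toReal)) :=
    (h3.const_mul _).const_add _
  refine le_of_tendsto h4 ?_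
  filter_upwards [eventually_ge_atTop r0] with r hr
  exact ineq_r ha hlam hA r0 hr0 K hT r hr

end

/-- A Cesàro argument. -/
lemma cesaro (P Q : ℝ → ℝ≥0∞) (hP1 : ∀ u, P u ≤ 1) (hQ1 : ∀ u, Q u ≤ 1) (p q : ℝ)
    (hP : Tendsto (fun u => (P u).toReal) atTop (𝓝 p))
    (hQ : Tendsto (fun u => (Q u).toReal) atTop (𝓝 q)) (α β γ C : ℝ)
    (hβ : 0 ≤ β) (hγ : 0 ≤ γ)
    (h : ∀ T, 0 ≤ T → α * T + β * (∫⁻ u in Ioc 0 T, Q u).toReal ≤
      C + γ * (∫⁻ u in Ioc 0 T, P u).toReal) : α + β * q ≤ γ * p := by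
  have hfin : ∀ F : ℝ → ℝ≥0∞, (∀ u, F u ≤ 1) → ∀ T, ∫⁻ u in Ioc 0 T, F u ≠ ⊤ := by
    intro F hF T
    refine ne_top_of_le_ne_top ENNReal.ofReal_ne_top (b := ENNReal.ofReal T) ?_
    calc _ ≤ ∫⁻ u in Ioc 0 T, 1 := lintegral_mono hF
      _ = _ := by rw [setLIntegral_const, Real.volume_Ioc, sub_zero, one_mul]
  refine le_of_forall_pos_le_add fun δ hδ => ?_
  set ε := δ / (β + γ + 1) with hε
  have hε0 : 0 < ε := by positivity
  have h1 : ∀ᶠ u in atTop, (P u).toReal < p + ε := hP.eventually_lt_const (by linarith)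
  have h2 : ∀ᶠ u in atTop, q - ε < (Q u).toReal := hQ.eventually_const_lt (by linarith)
  obtain ⟨t0, ht0⟩ := ((h1.and h2).and (eventually_ge_atTop 0)).exists_forall_of_atTop
  have ht0' : 0 ≤ t0 := (ht0 t0 le_rfl).2
  have hp0 : 0 ≤ p + ε := (ENNReal.toReal_nonneg).trans (ht0 t0 le_rfl).1.1.le
  have key : ∀ T, t0 ≤ T → α * T + β * ((q - ε) * (T - t0)) ≤
      C + γ * (t0 + (p + ε) * (T - t0)) := by
    intro T hT
    have hT0 : 0 ≤ T := ht0'.trans hT
    have hsplit : Ioc 0 T = Ioc 0 t0 ∪ Ioc t0 T := (Ioc_union_Ioc_eq_Ioc ht0' hT).symm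
    have a1 : (∫⁻ u in Ioc 0 T, P u).toReal ≤ t0 + (p + ε) * (T - t0) := by
      have : ∫⁻ u in Ioc 0 T, P u ≤ ENNReal.ofReal (t0 + (p + ε) * (T - t0)) := by
        rw [hsplit]
        calc _ ≤ (∫⁻ u in Ioc 0 t0, P u) + ∫⁻ u in Ioc t0 T, P u := lintegral_union_le _ _ _
          _ ≤ (∫⁻ u in Ioc 0 t0, 1) + ∫⁻ u in Ioc t0 T, ENNReal.ofReal (p + ε) := by
              refine add_le_add (lintegral_mono hP1) ?_
              · refine setLIntegral_mono' measurableSet_Ioc fun u hu => ?_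
                have := (ht0 u hu.1.le).1.1
                rw [← ENNReal.ofReal_toReal (ne_top_of_le_ne_top ENNReal.one_ne_top (hP1 u))]
                exact ENNReal.ofReal_le_ofReal this.le
          _ = _ := by
              rw [setLIntegral_const, setLIntegral_const, Real.volume_Ioc, Real.volume_Ioc,
                sub_zero, one_mul, ← ENNReal.ofReal_mul hp0,
                ← ENNReal.ofReal_add ht0' (mul_nonneg hp0 (by linarith))]
      exact ENNReal.toReal_le_of_le_ofReal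
        (add_nonneg ht0' (mul_nonneg hp0 (by linarith))) this
    have a2 : (q - ε) * (T - t0) ≤ (∫⁻ u in Ioc 0 T, Q u).toReal := by
      have : ENNReal.ofReal ((q - ε) * (T - t0)) ≤ ∫⁻ u in Ioc 0 T, Q u := by
        calc _ = ENNReal.ofReal (T - t0) * ENNReal.ofReal (q - ε) := by
              rw [← ENNReal.ofReal_mul (by linarith), mul_comm]
          _ = ∫⁻ u in Ioc t0 T, ENNReal.ofReal (q - ε) := by
              rw [setLIntegral_const, Real.volume_Ioc, mul_comm]
          _ ≤ ∫⁻ u in Ioc t0 T, Q u := by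
              refine setLIntegral_mono' measurableSet_Ioc fun u hu => ?_
              have := (ht0 u hu.1.le).1.2
              rw [← ENNReal.ofReal_toReal (ne_top_of_le_ne_top ENNReal.one_ne_top (hQ1 u))]
              exact ENNReal.ofReal_le_ofReal this.le
          _ ≤ _ := lintegral_mono_set (Ioc_subset_Ioc_left ht0')
      exact (ENNReal.ofReal_le_iff_le_toReal (hfin Q hQ1 T)).1 this
    have a3 := h T hT0
    have a4 := mul_le_mul_of_nonneg_left a1 hγ
    have a5 := mul_le_mul_of_nonneg_left a2 hβ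
    linarith
  -- the coefficient of `T` is nonpositive
  have hcoef : α + β * (q - ε) - γ * (p + ε) ≤ 0 := by
    by_contra hc
    push Not at hc
    set κ := α + β * (q - ε) - γ * (p + ε) with hκ
    set D := |C| + |β * (q - ε) * t0| + |γ * t0| + |γ * (p + ε) * t0| + 1 with hD
    have hD0 : 0 < D := by positivity
    have h3 := key (max t0 (D / κ)) (le_max_left _ _)
    have h4 : D ≤ κ * max t0 (D / κ) := by
      calc D = κ * (D / κ) := by field_simp
        _ ≤ _ := mul_le_mul_of_nonneg_left (le_max_right _ _) hc.le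
    have b1 := le_abs_self C
    have b2 := le_abs_self (β * (q - ε) * t0)
    have b3 := le_abs_self (γ * t0)
    have b4 := neg_abs_le (γ * (p + ε) * t0)
    nlinarith
  have h5 : (β + γ) * ε ≤ δ := by
    rw [hε, mul_div_assoc']
    rw [div_le_iff₀ (by positivity)]
    nlinarith
  nlinarith

lemma no_sequence (hlam : 0 < lam) (q : ℕ → ℝ) (hq0 : Tendsto q atTop (𝓝 0)) (hqn : ∀ k, 0 ≤ q k)
    (h : ∀ K : ℕ, lam + 2 * K * q (K + 1) ≤ (lam + 2 * K) * q K) : False := by
  obtain ⟨K0, hK0⟩ := (hq0.eventually_lt_const (by norm_num : (0 : ℝ) < 1 / 2)).exists_forall_of_atTop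
  have h1 : ∀ n : ℕ, (lam / (4 * (K0 + 1))) * ∑ i ∈ Finset.range n, (1 / ((i : ℝ) + 1)) ≤
      q (K0 + 1) - q (K0 + 1 + n) := by
    intro n
    induction n with
    | zero => simp
    | succ n ih =>
      rw [Finset.sum_range_succ, mul_add]
      have h2 := h (K0 + 1 + n)
      have h3 := hK0 (K0 + 1 + n) (by omega)
      have h4 := hqn (K0 + 1 + n)
      have e : K0 + 1 + (n + 1) = K0 + 1 + n + 1 := by ring
      rw [e]
      have h5 : lam / (4 * (K0 + 1)) * (1 / ((n : ℝ) + 1)) ≤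
          q (K0 + 1 + n) - q (K0 + 1 + n + 1) := by
        have h6 : lam / 2 ≤ 2 * ((K0 + 1 + n : ℕ) : ℝ) * (q (K0 + 1 + n) - q (K0 + 1 + n + 1)) := by
          nlinarith
        have h7 : (0 : ℝ) < ((K0 + 1 + n : ℕ) : ℝ) := by positivity
        have h8 : lam / (4 * ((K0 + 1 + n : ℕ) : ℝ)) ≤ q (K0 + 1 + n) - q (K0 + 1 + n + 1) := by
          rw [div_le_iff₀ (by positivity)]
          linarith
        refine le_trans ?_ h8
        rw [div_mul_div_comm, mul_one]
        apply div_le_div_of_nonneg_left hlam.le (by positivity)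
        push_cast
        have hn : (0 : ℝ) ≤ n := Nat.cast_nonneg _
        have hk : (0 : ℝ) ≤ K0 := Nat.cast_nonneg _
        nlinarith
      linarith
  have h2 : Tendsto (fun n : ℕ => (lam / (4 * (K0 + 1))) * ∑ i ∈ Finset.range n,
      (1 / ((i : ℝ) + 1))) atTop atTop :=
    Real.tendsto_sum_range_one_div_nat_succ_atTop.const_mul_atTop (by positivity)
  obtain ⟨n, hn⟩ := (h2.eventually_gt_atTop (q (K0 + 1))).exists
  have h3 := h1 n
  have h4 := hqn (K0 + 1 + n)
  linarith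

open Classical in
lemma boxTail_eq (W : Finset (Site d)) (w : Site d → ℕ) (n : ℕ) (t : ℝ) :
    boxTail a lam t W w n = pr (jump a lam (box d n)) (goodJ_jump a lam (box d n)) 0 t
      (fun y => if ∀ i ∈ W, w i ≤ y i then 1 else 0) := by
  have hm : MeasurableSet {ω : ℕ → Conf d × ℝ | ∀ i ∈ W, w i ≤ stateAt ω t i} :=
    (measurable_stateAt t) (MeasurableSpace.measurableSet_top
      (s := {y : Conf d | ∀ i ∈ W, w i ≤ y i}))
  unfold boxTail pr netLaw
  rw [← lintegral_indicator_one hm]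
  refine lintegral_congr fun ω => ?_
  simp only [Set.indicator, Set.mem_ofPred_eq, Pi.one_apply]

include ha hlam in
theorem boxTail_mono {t : ℝ} (ht : 0 ≤ t) (W : Finset (Site d)) (w : Site d → ℕ) :
    Monotone (boxTail a lam t W w) := by
  classical
  intro m n hmn
  rw [boxTail_eq, boxTail_eq]
  refine pr_le ha hlam 0 _ _ (box_nonempty m) (fun i hi => by
    rw [add_zero]; exact box_mono hmn hi) _ _ (fun y => by split_ifs <;> simp)
    (fun y => by split_ifs <;> simp) (fun x y hxy => ?_) ht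
  have : (∀ i ∈ W, w i ≤ x i) → ∀ i ∈ W, w i ≤ y i := by
    intro h i hi
    have h1 := hxy i
    rw [add_zero] at h1
    exact (h i hi).trans h1
  split_ifs <;> simp_all

lemma tail_eq (k : ℕ) (t : ℝ) : tail a lam t {0} (fun _ => k) = pinf a lam k t := by
  unfold tail pinf
  refine iSup_congr fun n => ?_
  rw [boxTail_eq]
  unfold tl
  congr 1
  ext y
  unfold ind
  simp

include ha in
/-- **Instability.** -/
theorem unstable (hlam : 0 < lam) (hA : 1 ≤ lam * ∑ᶠ i, a i) : ¬ Stable a lam := by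
  rintro ⟨ν, hν, hconv⟩
  set q : ℕ → ℝ := fun k => (ν {x : Site d → ℕ | ∀ i ∈ ({0} : Finset (Site d)), k ≤ x i}).toReal
    with hq
  have hqlim : Tendsto q atTop (𝓝 0) := by
    have h1 : Tendsto (fun k : ℕ => ν {x : Site d → ℕ | ∀ i ∈ ({0} : Finset (Site d)), k ≤ x i})
        atTop (𝓝 (ν (⋂ k : ℕ, {x : Site d → ℕ | ∀ i ∈ ({0} : Finset (Site d)), k ≤ x i}))) := by
      refine tendsto_measure_iInter_atTop (fun k => ?_) ?_ ⟨0, measure_ne_top _ _⟩
      · have : {x : Site d → ℕ | ∀ i ∈ ({0} : Finset (Site d)), k ≤ x i} =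
            (fun x : Site d → ℕ => x 0) ⁻¹' {m | k ≤ m} := by
          ext x; simp
        rw [this]
        exact ((measurable_pi_apply 0) (MeasurableSet.of_discrete)).nullMeasurableSet
      · intro k l hkl x hx i hi
        exact hkl.trans (hx i hi)
    have h2 : (⋂ k : ℕ, {x : Site d → ℕ | ∀ i ∈ ({0} : Finset (Site d)), k ≤ x i}) = ∅ := by
      ext x
      simp only [Finset.mem_singleton, forall_eq, Set.mem_iInter, Set.mem_ofPred_eq,
        Set.mem_empty_iff_false, iff_false, not_forall, not_le]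
      exact ⟨x 0 + 1, Nat.lt_succ_self _⟩
    rw [h2, measure_empty] at h1
    have h3 := (ENNReal.tendsto_toReal ENNReal.zero_ne_top).comp h1
    rw [ENNReal.toReal_zero] at h3
    exact h3
  have hconv' : ∀ k : ℕ, Tendsto (fun t => (pinf a lam k t).toReal) atTop (𝓝 (q k)) := by
    intro k
    have h1 := hconv {0} (fun _ => k)
    simp only [tail_eq] at h1
    exact (ENNReal.tendsto_toReal (measure_ne_top _ _)).comp h1
  refine no_sequence hlam q hqlim (fun k => ENNReal.toReal_nonneg) fun K => ?_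
  exact cesaro (pinf a lam K) (pinf a lam (K + 1)) (fun u => pinf_le_one ha hlam K u)
    (fun u => pinf_le_one ha hlam (K + 1) u) (q K) (q (K + 1)) (hconv' K) (hconv' (K + 1)) lam
    (2 * K) (lam + 2 * K) ((∑ᶠ i, a i) * K ^ 2) (by positivity) (by positivity)
    (fun T hT => ineq_inf ha hlam hA K hT)

end Q288.IQN
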